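import Pool.Agent.H17.GS.PisM

/-!
# The digits of almost all Pisot numbers of given degree

For every degree `d ≥ 2` there are between `c X ^ d` and `C X ^ d` Pisot numbers of degree `d` up to `X`. We
show that, up to a proportion `exp (-√(log X))` of exceptions, they have the following property: in all bases
`b ≥ 2`, all windows of at least `(log X) ^ (1 - γ)` consecutive digits among the first
`(log X) ^ (1 + γ) / log b` digits after the point are equidistributed up to `ε`. Since a Pisot number of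
degree `d` up to `X` is determined by `d log X` bits, this goes beyond the digits which can be prescribed.

Proof. Let `P = x ^ (q + 2) - n x ^ (q + 1) - b_0 x ^ q - ... - b_q` be the minimal polynomial of `β`. The
coefficients satisfy `|n - β| ≤ q + 1` and `|b_k| ≤ C X`, and `β` is the solution near `n` of the equation
`x - ∑ b_k x ^ (-k - 1) = n`. For fixed `b` with `|b_0| ≥ X exp (-(log X) ^ (1 - 4 γ))` this solution is a
holomorphic function of `n` in a sector, close to `n + b_0 / n`, and the general theorem of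
`Pool.Agent.H17.GS.Gs` (mean values of Riesz products, exponential sums with the method of Vinogradov and
Korobov) applies to it. The lower bound for the number of Pisot numbers comes from Perron's criterion, which
is proved here with the integral equation for the roots inside the unit disc.
-/

set_option autoImplicit false

open Polynomial

namespace Pool.Agent.Results.MP_f2f914_nt.PisotNumbers

/-- `β` is a Pisot number: a real algebraic integer `β > 1` all of whose other conjugates have absolute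
value less than one. -/
def IsPisot (β : ℝ) : Prop :=
  1 < β ∧ IsIntegral ℤ β ∧ ∀ z : ℂ, aeval z (minpoly ℤ β) = 0 → z ≠ β → ‖z‖ < 1

/-- The set of the Pisot numbers of degree `d` which are at most `X`. -/
def Pisot (d X : ℕ) : Set ℝ := {β | IsPisot β ∧ (minpoly ℤ β).natDegree = d ∧ β ≤ X}

/-- The discrepancy of the points `y b ^ i`, `u < i ≤ v`, modulo one is at most `ε`: for all
intervals `[α, β)` in `[0, 1]` the number of `u < i ≤ v` for which the fractional part of `y b ^ i` lies
in `[α, β)` differs from `(β - α) (v - u)` by at most `ε (v - u)`. -/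
def DiscrepancyAtMost (y : ℝ) (b u v : ℕ) (ε : ℝ) : Prop :=
  ∀ α β : ℝ, 0 ≤ α → α < β → β ≤ 1 →
    |(({i : ℕ | u < i ∧ i ≤ v ∧ α ≤ Int.fract (y * (b : ℝ) ^ i) ∧
      Int.fract (y * (b : ℝ) ^ i) < β}.ncard : ℕ) : ℝ) - (β - α) * ((v : ℝ) - u)| ≤ ε * ((v : ℝ) - u)

/-- For all `d ≥ 2` the set `Pisot d X` is finite and, for large `X`, has at least `c X ^ d` elements with
`c = c d > 0`. There is an absolute constant `γ > 0` such that for all `d ≥ 2` and `ε > 0` there is an `X₀`
such that for all `X ≥ X₀`: all but at most `exp (-√(log X)) * #(Pisot d X)` of the elements `β` of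
`Pisot d X` have this property: for all bases `b ≥ 2` and all `u`, `v` with `(log X) ^ (1 - γ) ≤ v - u` and
`v log b ≤ (log X) ^ (1 + γ)` the discrepancy of the points `β b ^ i`, `u < i ≤ v`, modulo one is at
most `ε`. -/
theorem result :
    (∀ d : ℕ, 2 ≤ d → (∀ X : ℕ, (Pisot d X).Finite) ∧ ∃ c : ℝ, 0 < c ∧ ∃ X₀ : ℕ, ∀ X : ℕ, X₀ ≤ X →
      c * (X : ℝ) ^ d ≤ ((Pisot d X).ncard : ℝ)) ∧
    ∃ γ : ℝ, 0 < γ ∧ ∀ d : ℕ, 2 ≤ d → ∀ ε : ℝ, 0 < ε → ∃ X₀ : ℕ, ∀ X : ℕ, X₀ ≤ X →
      (({β ∈ Pisot d X | ∃ b u v : ℕ, 2 ≤ b ∧ (Real.log X) ^ (1 - γ) ≤ (v : ℝ) - u ∧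
        v * Real.log b ≤ (Real.log X) ^ (1 + γ) ∧ ¬ DiscrepancyAtMost β b u v ε}.ncard : ℕ) : ℝ) ≤
          Real.exp (-√(Real.log X)) * ((Pisot d X).ncard : ℝ) := by
  constructor
  · intro d hd
    obtain ⟨q, rfl⟩ : ∃ q, d = q + 2 := ⟨d - 2, by omega⟩
    exact ⟨fun X => Pool.Agent.H17.GS.Pisot_finite q X, Pool.Agent.H17.GS.Pisot_many q⟩
  · obtain ⟨γ, hγ, hmain⟩ := Pool.Agent.H17.GS.pisot
    refine ⟨γ, hγ, ?_⟩
    intro d hd ε hε
    obtain ⟨q, rfl⟩ : ∃ q, d = q + 2 := ⟨d - 2, by omega⟩
    exact hmain q ε hε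

end Pool.Agent.Results.MP_f2f914_nt.PisotNumbers
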